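import Pool.Agent.H7.TRI.Stmts
import Pool.Agent.H23.KT.Base

/-!
Row TU1 of board tri (MP_fd41b2_co): triangles of the Turán graph with `Δ + 1` vertices.
-/

set_option autoImplicit false

namespace Pool.TRI

open Finset Pool.Agent.H23.KT

theorem TU1_c2 (n : ℕ) : 2 * n.choose 2 + n = n * n := by
  induction n with
  | zero => rfl
  | succ n ih =>
    rw [Nat.choose_succ_succ' n 1, Nat.choose_one_right]
    nlinarith

theorem TU1_c3 (n : ℕ) : 6 * n.choose 3 + 3 * (n * n) = n * n * n + 2 * n := by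
  induction n with
  | zero => rfl
  | succ n ih =>
    rw [Nat.choose_succ_succ' n 2]
    have := TU1_c2 n
    nlinarith

theorem TU1_thm : TU1Stmt := by
  intro Δ ω h3 hω h2
  rw [ncard_eq_kc, kc_turan _ _ _ h2 hω, E, P_formula]
  obtain ⟨a, ha⟩ : ∃ a, a = Δ + 1 - ω := ⟨_, rfl⟩
  obtain ⟨b, hb⟩ : ∃ b, b = Δ + 1 - 2 * (Δ + 1 - ω) := ⟨_, rfl⟩
  rw [← hb, ← ha]
  obtain ⟨D, rfl⟩ : ∃ D, Δ = D + 1 := ⟨Δ - 1, by omega⟩
  have hN : D + 2 = 2 * a + b := by omega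
  rw [Nat.add_sub_cancel]
  simp only [sum_range_succ, sum_range_zero, Nat.choose_zero_right, Nat.choose_one_right,
    pow_zero, pow_one, Nat.sub_zero, zero_add, one_mul, Nat.sub_self, mul_one,
    show 3 - 1 = 2 from rfl, show 3 - 2 = 1 from rfl]
  have e1 := TU1_c2 a
  have e2 := TU1_c2 b
  have e3 := TU1_c3 a
  have e4 := TU1_c3 b
  zify at e1 e2 e3 e4 hN ⊢
  have hD : (D : ℤ) = 2 * a + b - 2 := by linarith
  rw [hD]
  linear_combination e4 + (6 * (a : ℤ)) * e2 + 12 * (b : ℤ) * e1 + 8 * e3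

end Pool.TRI
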